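import Pool.Agent.helper53.ORE.Spec

/-!
# Project ore (MP_561ff4_al), row AEV: pairs
-/

set_option autoImplicit false

namespace Pool.Agent.ORE

open Module Pool.Agent.GS

theorem AEV_pairs {F V : Type} [Field F] [Finite F] [AddCommGroup V] [Module F V]
    (Q : QuadraticForm F V) (h2 : (2 : F) = 0) (y : Equiv.Perm V) (c : ℕ) (hc : Bc Q y c 2) :
    ∀ (l n : ℕ), n = 2 * l → ∀ b : Fin n → V, Oq Q b → LinearIndependent F b →
      Gq Q y (c * l) (fq Q b) := by
  intro l
  induction l with
  | zero =>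
    intro n hn b hb _
    subst hn
    have h1 : fq Q b = 1 := by
      ext x
      rw [fq_apply h2 hb]
      simp
    rw [h1]
    exact Gq.one _
  | succ l ih =>
    intro n hn b hb hli
    let e : Fin 2 ⊕ Fin (2 * l) ≃ Fin n :=
      finSumFinEquiv.trans (finCongr (by omega))
    have hbe : Oq Q (fun i => b (e i)) := hb.comp e.injective
    have hs : (fun i => b (e i)) =
        Sum.elim (fun i : Fin 2 => b (e (Sum.inl i))) (fun i : Fin (2 * l) => b (e (Sum.inr i))) := by
      funext i
      rcases i with i | i <;> rfl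
    have hbe' := hbe
    rw [hs] at hbe'
    have h3 : fq Q b = fq Q (fun i : Fin 2 => b (e (Sum.inl i))) *
        fq Q (fun i : Fin (2 * l) => b (e (Sum.inr i))) := by
      rw [← fq_equiv h2 hb e, ← fq_sum h2 hbe', ← hs]
    rw [h3]
    have h4 : Gq Q y c (fq Q (fun i : Fin 2 => b (e (Sum.inl i)))) :=
      hc _ hbe'.inl (hli.comp _ (e.injective.comp Sum.inl_injective))
    have h5 : Gq Q y (c * l) (fq Q (fun i : Fin (2 * l) => b (e (Sum.inr i)))) :=
      ih (2 * l) rfl _ hbe'.inr (hli.comp _ (e.injective.comp Sum.inr_injective))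
    have h6 := Gq.mul h4 h5 (fq_mem Q _).1
    have h7 : c + c * l = c * (l + 1) := by ring
    rw [h7] at h6
    exact h6

/-- Row AEV. -/
theorem AEV (ath : ATH_stmt) : AEV_stmt := by
  intro F V K _ _ _ _ _ _ _ _ Q h2 k hk σ j hD r hr hr2 hkr y c hc hev
  obtain ⟨a, ha, hali, hmem, hns⟩ := ath Q h2 k hk σ j hD r hr hr2 hkr
  obtain ⟨l, hl⟩ := hev
  refine ⟨_, hmem, ?_, hns⟩
  rw [fq_conj h2 hk ha]
  have hkli : LinearIndependent F (fun i => k (a i)) := by
    let L : V →ₗ[F] V := { toFun := k, map_add' := hk.1.1, map_smul' := hk.1.2 }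
    have hL : LinearMap.ker L = ⊥ := LinearMap.ker_eq_bot.2 k.injective
    exact hali.map' L hL
  have h3 := AEV_pairs Q h2 y c hc l (finrank F K) (by omega) _ (ha.mem hk) hkli
  have h4 := AEV_pairs Q h2 y c hc l (finrank F K) (by omega) _ ha hali
  have h5 := Gq.mul h3 h4 (fq_mem Q _).1
  have h6 : c * l + c * l = c * finrank F K := by rw [hl]; ring
  rw [h6] at h5
  exact h5

end Pool.Agent.ORE
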