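import Pool.Agent.helper83.ORE.SpecDE

/-!
# Project ore (MP_561ff4_al), row DHR: the element `h`
-/

set_option autoImplicit false

namespace Pool.Agent.ORE

open Module Pool.Agent.GS

/-- The coefficients of `T^i` modulo `T² + σ T + 1` in characteristic two. -/
def DHR_pq {K : Type} [Field K] (σ : K) : ℕ → K × K
  | 0 => (1, 0)
  | i + 1 => ((DHR_pq σ i).2, (DHR_pq σ i).1 + σ * (DHR_pq σ i).2)

/-- Row DHR. -/
theorem DHR (dqi : DQI_stmt) : DHR_stmt := by
  intro F V K M _ _ _ _ _ _ _ _ _ _ Q h2 k hk σ j hD r hr h hh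
  obtain ⟨-, d2, d3, -, -⟩ := dqi Q h2 k hk σ j hD
  have hK2 : (2 : K) = 0 := by
    have h3 : algebraMap F K 2 = 0 := by rw [h2, map_zero]
    rwa [map_ofNat] at h3
  have hM2 : (2 : M) = 0 := by
    have h3 : algebraMap K M 2 = 0 := by rw [hK2, map_zero]
    rwa [map_ofNat] at h3
  have c1 : ∀ i : ℕ, h ^ i = algebraMap K M (DHR_pq σ i).1 + algebraMap K M (DHR_pq σ i).2 * h := by
    intro i
    induction i with
    | zero => simp [DHR_pq]
    | succ i ih =>
      rw [pow_succ, ih]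
      simp only [DHR_pq, map_add, map_mul]
      linear_combination (algebraMap K M (DHR_pq σ i).2) * hh -
        (algebraMap K M (DHR_pq σ i).2 + algebraMap K M σ * algebraMap K M (DHR_pq σ i).2 * h) * hM2
  have c2 : ∀ (i : ℕ) (c : K), (k ^ i) (j c) =
      j ((DHR_pq σ i).1 * c) + k (j ((DHR_pq σ i).2 * c)) := by
    intro i c
    induction i with
    | zero =>
      have h0 : k 0 = 0 := by
        have h3 := hk.1.2 0 0
        rwa [zero_smul, zero_smul] at h3
      simp [DHR_pq, h0]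
    | succ i ih =>
      rw [pow_succ', Equiv.Perm.mul_apply, ih, hk.1.1, d2]
      have h3 : (DHR_pq σ (i + 1)).2 * c =
          (DHR_pq σ i).1 * c + σ * ((DHR_pq σ i).2 * c) := by
        simp only [DHR_pq]
        ring
      have h4 : (DHR_pq σ (i + 1)).1 * c = (DHR_pq σ i).2 * c := rfl
      rw [h3, h4, map_add, hk.1.1]
      abel
  have h3 := c2 r 1
  rw [hr, Equiv.Perm.one_apply, mul_one, mul_one] at h3
  have h4 : j ((DHR_pq σ r).1 - 1) + k (j (DHR_pq σ r).2) = 0 := by
    rw [map_sub]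
    rw [h3]
    have h5 : ∀ a b : V, a - (a + b) + b = 0 := fun a b => by abel
    have h6 : j (DHR_pq σ r).1 - j 1 + k (j (DHR_pq σ r).2) = 0 := by
      conv_lhs => rw [h3]
      abel
    rw [← h3]
    exact h6
  obtain ⟨h5, h6⟩ := d3 _ _ h4
  rw [c1 r, h6, map_zero, zero_mul, add_zero, sub_eq_zero.1 h5, map_one]

end Pool.Agent.ORE
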